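import Mathlib

/-!
# MP_4da8b1_gt, Q2 disproved

For `n = 4` the value `√6` is attained with `c = 0` by the pairs `{u, -u}`, where `u` runs over
three vertices of a regular triangle in a plane and two orthonormal vectors orthogonal to it.
-/

namespace Pool.Agent.Results.MP_4da8b1_gt.EqualityCase

open scoped RealInnerProductSpace

/-- Euclidean `n`-space -/
abbrev E (n : ℕ) : Type := EuclideanSpace ℝ (Fin n)

/-- A set of `k` unit vectors, `2 ≤ k ≤ n + 1`, with the origin a combination with strictly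
positive coefficients. -/
structure Family (n : ℕ) where
  /-- number of vectors -/
  k : ℕ
  two_le : 2 ≤ k
  le_succ : k ≤ n + 1
  /-- the vectors -/
  u : Fin k → E n
  inj : Function.Injective u
  unit : ∀ l, ‖u l‖ = 1
  balanced : ∃ c : Fin k → ℝ, (∀ l, 0 < c l) ∧ ∑ l, c l • u l = 0

/-- `m` is the maximum `M(U_1, …, U_{n+1}; c)`. -/
def IsMax {n : ℕ} (U : Fin (n + 1) → Family n) (c : E n) (m : ℝ) : Prop :=
  IsGreatest (Set.range fun l : (∀ i, Fin (U i).k) => ‖∑ i, (U i).u (l i) - c‖) m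

/-- `w` are the vertices of a regular simplex: affinely independent with all distances equal. -/
def IsRegularSimplex {n : ℕ} {ι : Type} (w : ι → E n) : Prop :=
  AffineIndependent ℝ w ∧ ∃ s : ℝ, ∀ i j, i ≠ j → dist (w i) (w j) = s

/-- The configurations listed in Q2. -/
def Listed {n : ℕ} (U : Fin (n + 1) → Family n) (c : E n) : Prop :=
  c = 0 ∧ ∃ v : Fin (n + 1) → E n,
    (∀ i, ‖v i‖ = 1 ∧ Set.range (U i).u = {v i, -v i}) ∧
    (Even n → IsRegularSimplex v) ∧
    (Odd n → ∃ (p : Equiv.Perm (Fin (n + 1))) (k : ℕ), 1 ≤ k ∧ k ≤ (n - 1) / 2 ∧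
      IsRegularSimplex (fun i : {i : Fin (n + 1) // i.val < 2 * k + 1} => v (p i)) ∧
      (∀ i j : Fin (n + 1), 2 * k + 1 ≤ i.val → i ≠ j → ⟪v (p i), v (p j)⟫ = 0))

/-- the five vectors -/
noncomputable def vec : Fin 5 → E 4 :=
  ![!₂[1, 0, 0, 0], !₂[-1 / 2, Real.sqrt 3 / 2, 0, 0], !₂[-1 / 2, -Real.sqrt 3 / 2, 0, 0],
    !₂[0, 0, 1, 0], !₂[0, 0, 0, 1]]

lemma norm_sq (x : E 4) : ‖x‖ ^ 2 = x 0 ^ 2 + x 1 ^ 2 + x 2 ^ 2 + x 3 ^ 2 := by
  rw [EuclideanSpace.norm_sq_eq]
  simp [Fin.sum_univ_four]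

lemma s3 : Real.sqrt 3 ^ 2 = 3 := Real.sq_sqrt (by norm_num)

lemma norm_vec (i : Fin 5) : ‖vec i‖ = 1 := by
  have h : ‖vec i‖ ^ 2 = 1 := by
    rw [norm_sq]
    fin_cases i <;> simp [vec] <;> nlinarith [s3]
  have h0 := norm_nonneg (vec i)
  nlinarith

lemma vec_ne (i : Fin 5) : vec i ≠ -vec i := by
  intro h
  have h1 : (2 : ℝ) • vec i = 0 := by
    rw [two_smul]
    nth_rewrite 2 [h]
    exact add_neg_cancel _
  have h2 : vec i = 0 := (smul_eq_zero.1 h1).resolve_left (by norm_num)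
  have h3 := norm_vec i
  rw [h2, norm_zero] at h3
  exact zero_ne_one h3

/-- the pair `{v, -v}` -/
noncomputable def pair (i : Fin 5) : Family 4 where
  k := 2
  two_le := le_rfl
  le_succ := by norm_num
  u := ![vec i, -vec i]
  inj := by
    intro a b h
    fin_cases a <;> fin_cases b
    · rfl
    · exact absurd h (vec_ne i)
    · exact absurd h.symm (vec_ne i)
    · rfl
  unit := by
    intro l
    fin_cases l
    · exact norm_vec i
    · simp [norm_vec i]
  balanced := ⟨fun _ => 1, fun _ => one_pos, by simp [Fin.sum_univ_two]⟩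

/-- sign of an index -/
def sg (l : Fin 2) : ℝ := if l = 0 then 1 else -1

lemma sg_sq (l : Fin 2) : sg l = 1 ∨ sg l = -1 := by
  unfold sg; split_ifs <;> simp

lemma pair_u (i : Fin 5) (l : Fin 2) : (pair i).u l = sg l • vec i := by
  fin_cases l
  · simp [pair, sg]
  · simp [pair, sg]

lemma sum_norm (l : Fin 5 → Fin 2) :
    ‖∑ i, (pair i).u (l i) - 0‖ ^ 2 =
      5 - (sg (l 0) * sg (l 1) + sg (l 0) * sg (l 2) + sg (l 1) * sg (l 2)) := by
  rw [sub_zero]
  simp only [pair_u]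
  rw [norm_sq]
  simp only [Fin.sum_univ_five]
  simp [vec]
  have h : ∀ i, sg (l i) ^ 2 = 1 := fun i => by
    rcases sg_sq (l i) with h | h <;> rw [h] <;> norm_num
  have h0 := h 0
  have h1 := h 1
  have h2 := h 2
  have h3 := h 3
  have h4 := h 4
  have hs := s3
  linear_combination h0 + h1 + h2 + h3 + h4 + (sg (l 1) - sg (l 2)) ^ 2 / 4 * hs

lemma le_six (l : Fin 5 → Fin 2) : ‖∑ i, (pair i).u (l i) - 0‖ ^ 2 ≤ 6 := by
  rw [sum_norm]
  rcases sg_sq (l 0) with h0 | h0 <;> rcases sg_sq (l 1) with h1 | h1 <;>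
    rcases sg_sq (l 2) with h2 | h2 <;> rw [h0, h1, h2] <;> norm_num

/-- Q2 is false: there are admissible families with `M = √(n+2)` that are not of the listed
form. -/
theorem result : ∃ (n : ℕ) (U : Fin (n + 1) → Family n) (c : E n), 1 ≤ n ∧
    IsMax U c (Real.sqrt ((n : ℝ) + 2)) ∧ ¬ Listed U c := by
  refine ⟨4, pair, 0, by norm_num, ⟨⟨(![0, 0, 1, 0, 0] : Fin 5 → Fin 2), ?_⟩, ?_⟩, ?_⟩
  · have h := sum_norm ![0, 0, 1, 0, 0]
    have h6 : ‖∑ i, (pair i).u ((![0, 0, 1, 0, 0] : Fin 5 → Fin 2) i) - 0‖ ^ 2 = 6 := by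
      rw [h]; simp [sg]; norm_num
    have h7 : (((4 : ℕ) : ℝ) + 2) = 6 := by norm_num
    rw [h7, ← h6]
    exact (Real.sqrt_sq (norm_nonneg _)).symm
  · rintro _ ⟨l, rfl⟩
    have h7 : (((4 : ℕ) : ℝ) + 2) = 6 := by norm_num
    rw [h7]
    exact Real.le_sqrt_of_sq_le (le_six l)
  · rintro ⟨-, v, hv, heven, -⟩
    obtain ⟨-, s, hs⟩ := heven (by decide)
    have hvi : ∀ i : Fin 5, v i = vec i ∨ v i = -vec i := by
      intro i
      have h1 : v i ∈ Set.range (pair i).u := by rw [(hv i).2]; exact Or.inl rfl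
      obtain ⟨l, hl⟩ := h1
      rw [← hl]
      change Fin 2 at l
      fin_cases l
      · left; rfl
      · right; rfl
    have d34 : dist (v 3) (v 4) ^ 2 = 2 := by
      rw [dist_eq_norm, norm_sq]
      rcases hvi 3 with h | h <;> rcases hvi 4 with h' | h' <;> rw [h, h'] <;> simp [vec] <;>
        norm_num
    have d01 : dist (v 0) (v 1) ^ 2 = 3 ∨ dist (v 0) (v 1) ^ 2 = 1 := by
      rw [dist_eq_norm, norm_sq]
      rcases hvi 0 with h | h <;> rcases hvi 1 with h' | h' <;> rw [h, h'] <;> simp [vec]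
      · left; nlinarith [s3]
      · right; nlinarith [s3]
      · right; nlinarith [s3]
      · left; nlinarith [s3]
    rw [hs 3 4 (by decide)] at d34
    rw [hs 0 1 (by decide)] at d01
    rcases d01 with h | h <;> linarith

end Pool.Agent.Results.MP_4da8b1_gt.EqualityCase
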